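import Pool.Agent.helper59.FI4.SpecP4
import Pool.Agent.helper59.FI.Base

set_option autoImplicit false

namespace Pool.Agent.FI4

open Pool.Agent.helper58.DC Pool.Agent.DI Pool.Agent.GR Pool.Agent.OB Pool.Agent.DR Pool.Agent.FI Pool.Agent.FI3

/-- an element of a `p`-group is a power of its `s`-th power -/
theorem RGF_pow {G : Type} [Group G] [Finite G] {p : ℕ} (hp : p.Prime) {D : Subgroup G} (hD : IsPGroup p D)
    {u : G} (hu : u ∈ D) {s : ℕ} (hs : ¬ p ∣ s) : ∃ m : ℕ, (u ^ s) ^ m = u := by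
  have hfact : Fact p.Prime := ⟨hp⟩
  obtain ⟨k, hk⟩ := (IsPGroup.iff_orderOf.1 hD) ⟨u, hu⟩
  have h1 : orderOf u = p ^ k := by
    rw [← hk]
    exact (Subgroup.orderOf_mk u hu).symm
  apply exists_pow_eq_self_of_coprime
  rw [h1]
  exact Nat.Coprime.pow_right k ((Nat.Prime.coprime_iff_not_dvd hp).2 hs).symm

theorem RGF_com {G : Type} [Group G] {t u : G} {s : ℕ} (h : t * u = u * t) : t * u ^ s = u ^ s * t :=
  ((show Commute t u from h).pow_right s)

theorem RGF : RGF_stmt := by
  intro p M hp G _ _ D θ hθ hD hcom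
  have hCT : cz D ≤ TT M D θ := cz_le_TT
  have hcard : Nat.card (TT M D θ) = iI M D θ * Nat.card (cz D) := by
    have h := Subgroup.relIndex_mul_relIndex (⊥ : Subgroup G) (cz D) (TT M D θ) bot_le hCT
    rw [Subgroup.relIndex_bot_left, Subgroup.relIndex_bot_left] at h
    rw [← h, mul_comm]
    rfl
  refine ⟨?_, ?_, ?_, ?_, ?_, hcard⟩
  · intro u hu t ht
    have htn : t ∈ nz D := ht.1
    refine ⟨(Subgroup.mem_normalizer_iff.1 htn u).1 hu.1, ?_⟩
    intro s hs hcs
    have h1 : t⁻¹ * s * t ∈ TT M D θ :=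
      (TT M D θ).mul_mem ((TT M D θ).mul_mem ((TT M D θ).inv_mem ht) hs) ht
    have h2 : (t⁻¹ * s * t) * u = u * (t⁻¹ * s * t) := by
      calc (t⁻¹ * s * t) * u = t⁻¹ * (s * (t * u * t⁻¹)) * t := by group
        _ = t⁻¹ * ((t * u * t⁻¹) * s) * t := by rw [hcs]
        _ = u * (t⁻¹ * s * t) := by group
    have h3 := cz_conj htn (hu.2 _ h1 h2)
    have h4 : t * (t⁻¹ * s * t) * t⁻¹ = s := by group
    rwa [h4] at h3
  · intro u hu s hs
    constructor
    · intro h
      exact ⟨hu, fun t ht htu => h.2 t ht (RGF_com htu)⟩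
    · intro h
      refine ⟨D.pow_mem hu s, fun t ht htu => h.2 t ht ?_⟩
      obtain ⟨m, hm⟩ := RGF_pow hp hD hu hs
      have h1 := RGF_com (s := m) htu
      rwa [hm] at h1
  · intro u hu
    set C := (cz D).subgroupOf (TT M D θ) with hC
    have hwd : ∀ a b : TT M D θ, QuotientGroup.leftRel C a b → (a : G) * u * (a : G)⁻¹ = (b : G) * u * (b : G)⁻¹ := by
      intro a b hab
      rw [QuotientGroup.leftRel_apply, hC, Subgroup.mem_subgroupOf] at hab
      have h1 : ((a⁻¹ * b : TT M D θ) : G) = (a : G)⁻¹ * b := rfl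
      rw [h1] at hab
      have h2 := (Subgroup.mem_centralizer_iff.1 hab) u hu.1
      calc (a : G) * u * (a : G)⁻¹ = a * (u * ((a : G)⁻¹ * b)) * (b : G)⁻¹ := by group
        _ = a * (((a : G)⁻¹ * b) * u) * (b : G)⁻¹ := by rw [h2]
        _ = (b : G) * u * (b : G)⁻¹ := by group
    set F : (TT M D θ ⧸ C) → G := Quotient.lift (fun a : TT M D θ => (a : G) * u * (a : G)⁻¹) hwd with hF
    have hinj : Function.Injective F := by
      intro x y
      induction x using Quotient.inductionOn with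
      | h a =>
      induction y using Quotient.inductionOn with
      | h b =>
        intro h
        have h0 : (a : G) * u * (a : G)⁻¹ = (b : G) * u * (b : G)⁻¹ := h
        apply Quotient.sound
        change QuotientGroup.leftRel C a b
        rw [QuotientGroup.leftRel_apply, hC, Subgroup.mem_subgroupOf]
        refine hu.2 _ ((a⁻¹ * b : TT M D θ)).2 ?_
        change ((a : G)⁻¹ * b) * u = u * ((a : G)⁻¹ * b)
        calc ((a : G)⁻¹ * b) * u = (a : G)⁻¹ * ((b : G) * u * (b : G)⁻¹) * b := by group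
          _ = (a : G)⁻¹ * ((a : G) * u * (a : G)⁻¹) * b := by rw [h0]
          _ = u * ((a : G)⁻¹ * b) := by group
    have hrange : {a : G | ∃ t ∈ TT M D θ, t * u * t⁻¹ = a} = Set.range F := by
      ext a
      constructor
      · rintro ⟨t, ht, rfl⟩
        exact ⟨Quotient.mk _ (⟨t, ht⟩ : TT M D θ), rfl⟩
      · rintro ⟨x, rfl⟩
        induction x using Quotient.inductionOn with
        | h b => exact ⟨b, b.2, rfl⟩
    rw [hrange, ← Nat.card_coe_set_eq, Nat.card_range_of_injective hinj]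
    rfl
  · intro u hu
    refine ⟨(Subgroup.zpowers_le).2 hu.1, ?_⟩
    intro t ht htc
    refine hu.2 t ht ?_
    exact ((Subgroup.mem_centralizer_iff.1 htc) u (Subgroup.mem_zpowers u)).symm
  · have h1 : 0 < Nat.card (TT M D θ) := Nat.card_pos
    rw [hcard] at h1
    exact Nat.pos_of_mul_pos_right h1

end Pool.Agent.FI4
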