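import Pool.Agent.helper59.FI4.SpecI

set_option autoImplicit false

namespace Pool.Agent.FI4I

open Pool.Agent.helper58.DC Pool.Agent.DI Pool.Agent.GR Pool.Agent.OB Pool.Agent.DR Pool.Agent.FI Pool.Agent.FI3 Pool.Agent.FI4

theorem TR1 (hB13 : B13_stmt) : TR1_stmt := by
  intro G _ _ N H hHN
  obtain ⟨b1, b2, b3, b4, -, -⟩ := hB13 N G 2 N.subtype N.subtype_injective (H.subgroupOf N)
  have hmap : (H.subgroupOf N).map N.subtype = H := by
    rw [Subgroup.subgroupOf_map_subtype, inf_eq_left.2 hHN]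
  rw [hmap] at b2 b3
  have hext : ∀ ψ : G → ℂ, (∀ x, x ∉ N → ψ x = 0) → ext0 N.subtype (rN N ψ) = ψ := by
    intro ψ hψ
    funext x
    by_cases hx : x ∈ N
    · exact (b1 (rN N ψ)).1 ⟨x, hx⟩
    · rw [hψ x hx]
      exact (b1 (rN N ψ)).2 x (by rwa [Subgroup.range_subtype])
  refine ⟨?_, ?_, ?_⟩
  · intro ψ hψ
    rw [b2, hext ψ hψ]
  · intro ψ' hψ'
    refine ⟨ext0 N.subtype ψ', (b2 ψ').1 hψ', ?_⟩
    funext n
    exact (b1 ψ').1 n
  · intro ψ ψ' h h' e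
    rw [← hext ψ h, ← hext ψ' h', e]

end Pool.Agent.FI4I
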