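import Pool.Agent.helper12.FI4.SpecX
import Pool.Agent.helper59.FI.Base

set_option autoImplicit false

namespace Pool.Agent.FI4

open Pool.Agent.helper58.DC Pool.Agent.DI Pool.Agent.GR Pool.Agent.OB Pool.Agent.DR Pool.Agent.FI Pool.Agent.FI3

section

variable {H : Type} [Group H]

theorem X3_cj {K C : Subgroup H} (hK : K.Normal) {t : H} (ht : cj t C = C) : cj t (C ⊓ K) = C ⊓ K := by
  ext x
  have h1 : t⁻¹ * x * t ∈ C ↔ x ∈ C := by
    rw [← mem_cj, ht]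
  have h2 : t⁻¹ * x * t ∈ K ↔ x ∈ K := by
    constructor
    · intro h
      have h3 := hK.conj_mem _ h t
      have e : t * (t⁻¹ * x * t) * t⁻¹ = x := by group
      rwa [e] at h3
    · intro h
      have h3 := hK.conj_mem _ h t⁻¹
      rwa [inv_inv] at h3
  rw [mem_cj, Subgroup.mem_inf, Subgroup.mem_inf, h1, h2]

theorem X3_inj (t : H) : Function.Injective (funMap (MulAut.conj t) : (H → ℂ) → H → ℂ) := by
  intro a b h
  have h1 := congrArg (funMap (MulAut.conj t⁻¹)) h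
  rwa [← funMap_mul, ← funMap_mul, inv_mul_cancel, funMap_one', funMap_one'] at h1

/-- the orbit of `ψ` under `C` -/
def X3_orb (C : Subgroup H) (ψ : H → ℂ) : Set (H → ℂ) := {ψ' | ∃ n ∈ C, ψ' = funMap (MulAut.conj n) ψ}

theorem X3_orb_fin [Finite H] (C : Subgroup H) (ψ : H → ℂ) : (X3_orb C ψ).Finite := by
  have h : X3_orb C ψ ⊆ Set.range fun n : H => funMap (MulAut.conj n) ψ := by
    rintro _ ⟨n, -, rfl⟩
    exact ⟨n, rfl⟩
  exact (Set.finite_range _).subset h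

theorem X3_cc [Finite H] {K C : Subgroup H} {η η₀ : H → ℂ} (hη : ∀ x, x ∉ C → η x = 0)
    (hη₀ : ∀ x, x ∉ C ⊓ K → η₀ x = 0) (ho : OverP (C ⊓ K) C η η₀) {z : H → ℂ}
    (hz : ∀ c ∈ C, ∀ x, z (c * x * c⁻¹) = z x) (hz0 : ∀ x, x ∉ K → z x = 0) : cc η z = cc η₀ z := by
  classical
  have := Fintype.ofFinite H
  have hfin := X3_orb_fin C η₀
  set O := hfin.toFinset with hO
  have hmem : ∀ ψ, ψ ∈ O ↔ ∃ n ∈ C, ψ = funMap (MulAut.conj n) η₀ := fun ψ => hfin.mem_toFinset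
  have hsum : ∀ x ∈ C ⊓ K, η x = ∑ ψ ∈ O, ψ x := by
    intro x hx
    rw [ho x hx]
    exact finsum_mem_eq_finite_toFinset_sum _ hfin
  have hone : ∀ ψ ∈ O, ψ 1 = η₀ 1 := by
    intro ψ hψ
    obtain ⟨n, -, rfl⟩ := (hmem ψ).1 hψ
    rw [funMap_apply]
    congr 1
    group
  have hnum : ∀ ψ ∈ O, ∑ x, z x * ψ x = ∑ x, z x * η₀ x := by
    intro ψ hψ
    obtain ⟨n, hn, rfl⟩ := (hmem ψ).1 hψ
    refine Fintype.sum_equiv (MulAut.conj n⁻¹).toEquiv _ _ fun x => ?_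
    have e : (MulAut.conj n⁻¹).toEquiv x = n⁻¹ * x * n := by
      change n⁻¹ * x * (n⁻¹)⁻¹ = _
      rw [inv_inv]
    rw [e, funMap_apply]
    have h1 := hz n⁻¹ (C.inv_mem hn) x
    rw [inv_inv] at h1
    rw [h1]
  have hcard : (O.card : ℂ) ≠ 0 := by
    have h1 : η₀ ∈ O := (hmem _).2 ⟨1, C.one_mem, (funMap_one' η₀).symm⟩
    exact_mod_cast (Finset.card_pos.2 ⟨_, h1⟩).ne'
  have h1 : η 1 = O.card * η₀ 1 := by
    rw [hsum 1 (Subgroup.one_mem _), Finset.sum_congr rfl hone, Finset.sum_const, nsmul_eq_mul]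
  have h2 : ∑ x, z x * η x = O.card * ∑ x, z x * η₀ x := by
    have h3 : ∀ x, z x * η x = ∑ ψ ∈ O, z x * ψ x := by
      intro x
      rw [← Finset.mul_sum]
      by_cases hx : x ∈ K
      · by_cases hc : x ∈ C
        · rw [hsum x ⟨hc, hx⟩]
        · rw [hη x hc]
          congr 1
          symm
          refine Finset.sum_eq_zero fun ψ hψ => ?_
          obtain ⟨n, hn, rfl⟩ := (hmem ψ).1 hψ
          rw [funMap_apply]
          apply hη₀
          intro h4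
          apply hc
          have h5 := C.mul_mem (C.mul_mem hn h4.1) (C.inv_mem hn)
          have e : n * (n⁻¹ * x * n) * n⁻¹ = x := by group
          rwa [e] at h5
      · rw [hz0 x hx, zero_mul, zero_mul]
    calc ∑ x, z x * η x = ∑ x, ∑ ψ ∈ O, z x * ψ x := Finset.sum_congr rfl fun x _ => h3 x
      _ = ∑ ψ ∈ O, ∑ x, z x * ψ x := Finset.sum_comm
      _ = ∑ ψ ∈ O, ∑ x, z x * η₀ x := Finset.sum_congr rfl hnum
      _ = O.card * ∑ x, z x * η₀ x := by rw [Finset.sum_const, nsmul_eq_mul]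
  unfold cc
  rw [finsum_eq_sum_of_fintype, finsum_eq_sum_of_fintype, h1, h2, mul_div_mul_left _ _ hcard]

theorem X3_over {K C : Subgroup H} (hK : K.Normal) {η η₀ : H → ℂ} (ho : OverP (C ⊓ K) C η η₀) {t : H}
    (ht : cj t C = C) : OverP (C ⊓ K) C (funMap (MulAut.conj t) η) (funMap (MulAut.conj t) η₀) := by
  intro x hx
  have hx' : t⁻¹ * x * t ∈ C ⊓ K := by
    rw [← mem_cj, X3_cj hK ht]
    exact hx
  have himg : {ψ' : H → ℂ | ∃ n ∈ C, ψ' = funMap (MulAut.conj n) (funMap (MulAut.conj t) η₀)} =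
      funMap (MulAut.conj t) '' {ψ' : H → ℂ | ∃ n ∈ C, ψ' = funMap (MulAut.conj n) η₀} := by
    ext ψ
    constructor
    · rintro ⟨n, hn, rfl⟩
      refine ⟨_, ⟨t⁻¹ * n * t, ?_, rfl⟩, ?_⟩
      · rw [← mem_cj, ht]
        exact hn
      · rw [← funMap_mul, ← funMap_mul]
        congr 2
        group
    · rintro ⟨_, ⟨n, hn, rfl⟩, rfl⟩
      refine ⟨t * n * t⁻¹, ?_, ?_⟩
      · rw [← ht]
        exact conj_mem_cj.2 hn
      · rw [← funMap_mul, ← funMap_mul]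
        congr 2
        group
  rw [himg, finsum_mem_image (X3_inj t).injOn, funMap_apply, ho _ hx']
  refine finsum_mem_congr rfl fun ψ _ => ?_
  rw [funMap_apply]

end

theorem X3 (hIDM : IDM_stmt) (hEIN : EIN_stmt) (hSBI : SBI_stmt) (hCJG : CJG_stmt) (hB2 : B2_stmt) : X3_stmt := by
  intro p M hS H _ _ K C hK η hη η₀ hη₀ ho
  refine ⟨fun z hz hz0 => X3_cc hη.1 hη₀.1 ho hz hz0, ?_⟩
  intro t ht hsb
  set S : Set (H → ℂ) := {ψ | ψ ∈ IrrOn (C ⊓ K) ∧ ∃ c ∈ C, SB M (C ⊓ K) ψ (funMap (MulAut.conj c) η₀)} with hSdef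
  have hcjc : ∀ c ∈ C, cj c (C ⊓ K) = C ⊓ K := fun c hc => X3_cj hK (cj_self hc)
  have hBC : BC M (C ⊓ K) S := by
    refine ⟨fun ψ hψ => hψ.1, ?_⟩
    rintro ψ ⟨h1, c, hc, h2⟩ ψ' h3 h4
    have h5 : SB M (C ⊓ K) ψ ψ' := h4
    exact ⟨h3, c, hc, h5.symm.trans h2⟩
  obtain ⟨i1, i2, -, -⟩ := hIDM H (C ⊓ K) S hBC.sub
  have hint := hEIN p M hS H (C ⊓ K) S hBC
  set f := eS (C ⊓ K) S with hf
  have hperm : ∀ c ∈ C, funMap (MulAut.conj c) '' S ⊆ S := by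
    rintro c hc _ ⟨ψ, ⟨h1, c', hc', h2⟩, rfl⟩
    refine ⟨?_, c * c', C.mul_mem hc hc', ?_⟩
    · have h3 := IrrOn_funMap h1 c
      rwa [hcjc c hc] at h3
    · have h3 := SB_conj h2 c
      rwa [hcjc c hc, ← funMap_mul] at h3
  have hperm' : ∀ c ∈ C, funMap (MulAut.conj c) '' S = S := by
    intro c hc
    apply Set.Subset.antisymm (hperm c hc)
    intro ψ hψ
    refine ⟨funMap (MulAut.conj c⁻¹) ψ, hperm c⁻¹ (C.inv_mem hc) ⟨ψ, hψ, rfl⟩, ?_⟩
    rw [← funMap_mul, mul_inv_cancel, funMap_one']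
  have hfinv : ∀ c ∈ C, ∀ x, f (c * x * c⁻¹) = f x := by
    intro c hc x
    rw [hf]
    unfold eS
    congr 1
    conv_rhs => rw [← hperm' c⁻¹ (C.inv_mem hc), finsum_mem_image (X3_inj c⁻¹).injOn]
    refine finsum_mem_congr rfl fun ψ _ => ?_
    rw [funMap_apply, funMap_apply, inv_inv]
    congr 2
    · group
    · group
  have hf0 : ∀ x, x ∉ C ⊓ K → f x = 0 := i1.2
  have hCF : CF C f := ⟨hfinv, fun x hx => hf0 x fun h => hx h.1⟩
  have hfK : ∀ x, x ∉ K → f x = 0 := fun x hx => hf0 x fun h => hx h.2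
  have hin := (hSBI p M hS H C _ _ hsb).1 f hCF hint
  have e1 : cc η f = 1 := by
    rw [X3_cc hη.1 hη₀.1 ho hfinv hfK, i2 _ hη₀, if_pos]
    refine ⟨hη₀, 1, C.one_mem, ?_⟩
    rw [funMap_one']
    exact SB.refl _ _
  have htη : ∀ x, x ∉ C → funMap (MulAut.conj t) η x = 0 := by
    intro x hx
    refine funMap_zero hη.1 t x ?_
    rwa [ht]
  have htη₀ : funMap (MulAut.conj t) η₀ ∈ IrrOn (C ⊓ K) := by
    have h3 := IrrOn_funMap hη₀ t
    rwa [X3_cj hK ht] at h3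
  by_cases hm : funMap (MulAut.conj t) η₀ ∈ S
  · exact hm.2
  · exfalso
    have e2 : cc (funMap (MulAut.conj t) η) f = 0 := by
      rw [X3_cc htη htη₀.1 (X3_over hK ho ht) hfinv hfK, i2 _ htη₀, if_neg hm]
    rw [e1, e2] at hin
    have h3 := hin.neg
    rw [zero_sub, neg_neg] at h3
    exact InM.not_one hS h3

end Pool.Agent.FI4
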